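import Pool.Agent.Helper84.OV.Zero

/-!
# Project OV, packet SQR: square roots of power series over the rationals with constant coefficient one
-/

set_option autoImplicit false

open Finset

namespace Pool.Agent.Helper52.OV.SQR

open Pool.Agent.Helper84.OV

/-- coefficients of the square root -/
noncomputable def sq (z : ℕ → ℚ) : ℕ → ℚ
  | 0 => 1
  | n + 1 => (z (n + 1) - ∑ i : Fin n, sq z (i.1 + 1) * sq z (n - i.1)) / 2
  decreasing_by all_goals (have := i.2; omega)

theorem sq_zero (z : ℕ → ℚ) : sq z 0 = 1 := by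
  rw [sq]

theorem sq_succ (z : ℕ → ℚ) (n : ℕ) :
    sq z (n + 1) = (z (n + 1) - ∑ i ∈ range n, sq z (i + 1) * sq z (n - i)) / 2 := by
  rw [sq, Finset.sum_range (fun i => sq z (i + 1) * sq z (n - i))]

theorem sq_mul (z : PowerSeries ℚ) (hz : PowerSeries.constantCoeff z = 1) :
    PowerSeries.mk (sq (fun n => PowerSeries.coeff n z)) *
      PowerSeries.mk (sq (fun n => PowerSeries.coeff n z)) = z := by
  ext n
  rw [PowerSeries.coeff_mul]
  simp only [PowerSeries.coeff_mk]
  rw [Finset.Nat.sum_antidiagonal_eq_sum_range_succ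
    (fun i j => sq (fun n => PowerSeries.coeff n z) i * sq (fun n => PowerSeries.coeff n z) j) n]
  cases n with
  | zero =>
    simp only [Nat.succ_eq_add_one, zero_add, sum_range_one, sq_zero, Nat.sub_self, mul_one]
    rw [← hz, PowerSeries.coeff_zero_eq_constantCoeff_apply]
  | succ n =>
    rw [Finset.sum_range_succ', Finset.sum_range_succ]
    have h1 : ∀ k ∈ range n, sq (fun n => PowerSeries.coeff n z) (k + 1) *
        sq (fun n => PowerSeries.coeff n z) (n + 1 - (k + 1)) =
        sq (fun n => PowerSeries.coeff n z) (k + 1) * sq (fun n => PowerSeries.coeff n z) (n - k) := by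
      intro k _
      rw [Nat.add_sub_add_right]
    rw [Finset.sum_congr rfl h1, Nat.sub_self, Nat.sub_zero, sq_zero,
      sq_succ (fun n => PowerSeries.coeff n z) n]
    ring

theorem t : S_SQR := by
  intro a b hab ha
  have hb : PowerSeries.constantCoeff b ≠ 0 := hab ▸ ha
  refine ⟨PowerSeries.mk (sq (fun n => PowerSeries.coeff n (a * b⁻¹))), ?_, ?_⟩
  · rw [← PowerSeries.coeff_zero_eq_constantCoeff_apply, PowerSeries.coeff_mk, sq_zero]
  · rw [pow_two, sq_mul, mul_assoc, PowerSeries.inv_mul_cancel b hb, mul_one]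
    rw [map_mul, PowerSeries.constantCoeff_inv, hab, mul_inv_cancel₀ hb]

end Pool.Agent.Helper52.OV.SQR
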